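import Mathlib

/-!
# Sigma invariants of metabelian groups: definitions and statements of the items

Project MP_e9e200_al (Bieri's conjecture for the invariants `Σ^m` of metabelian groups).
-/

set_option autoImplicit false

namespace Pool.Agent.Work.MP_e9e200_al

/-! ### Definitions -/

/-- The left `R`-module `M` is of type `FP_m`: it has a projective resolution `P` with `P i`
finitely generated for all `i ≤ m`. -/
def IsFP (R : Type) [Ring R] (M : Type) [AddCommGroup M] [Module R M] (m : ℕ) : Prop :=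
  ∃ (P : ℕ → ModuleCat.{0} R) (d : ∀ i, P (i + 1) →ₗ[R] P i) (ε : P 0 →ₗ[R] M),
    (∀ i, Module.Projective R (P i)) ∧ (∀ i, i ≤ m → Module.Finite R (P i)) ∧
    Function.Surjective ε ∧ Function.Exact (d 0) ε ∧ ∀ i, Function.Exact (d (i + 1)) (d i)

/-- the augmentation `∑ n_s s ↦ ∑ n_s` of the monoid ring `ℤS` -/
noncomputable def aug (S : Type) [Monoid S] : MonoidAlgebra ℤ S →+* ℤ :=
  (MonoidAlgebra.lift ℤ ℤ S (1 : S →* ℤ)).toRingHom

/-- the trivial module `ℤ` over the monoid ring `ℤS` -/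
def Triv (S : Type) [Monoid S] : Type := ℤ

instance (S : Type) [Monoid S] : AddCommGroup (Triv S) := inferInstanceAs (AddCommGroup ℤ)

noncomputable instance (S : Type) [Monoid S] : Module (MonoidAlgebra ℤ S) (Triv S) :=
  Module.compHom ℤ (aug S)

/-- the monoid `G_χ` of all `g` with `χ g ≥ 0` -/
def Gmon {G : Type} [Group G] (χ : Additive G →+ ℝ) : Submonoid G where
  carrier := {g | 0 ≤ χ (Additive.ofMul g)}
  one_mem' := by simp
  mul_mem' := by
    intro a b ha hb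
    have h : χ (Additive.ofMul (a * b)) = χ (Additive.ofMul a) + χ (Additive.ofMul b) := by
      rw [ofMul_mul, map_add]
    have ha' : 0 ≤ χ (Additive.ofMul a) := ha
    have hb' : 0 ≤ χ (Additive.ofMul b) := hb
    show 0 ≤ χ (Additive.ofMul (a * b))
    rw [h]; exact add_nonneg ha' hb'

/-- the complement of `Σ^m(G, ℤ)`: the nonzero characters `χ` such that the trivial module is not
of type `FP_m` over the monoid ring of `G_χ` -/
def SigC (G : Type) [Group G] (m : ℕ) : Set (Additive G →+ ℝ) :=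
  {χ | χ ≠ 0 ∧ ¬ IsFP (MonoidAlgebra ℤ (Gmon χ)) (Triv (Gmon χ)) m}

/-- the group `G` is of type `FP_m` -/
def GroupFP (G : Type) [Group G] (m : ℕ) : Prop := IsFP (MonoidAlgebra ℤ G) (Triv G) m

/-- the nonzero vectors in the convex hull of an `m`-element subset of the cone of `T` -/
def ConvLE (G : Type) [Group G] (m : ℕ) (T : Set (Additive G →+ ℝ)) :
    Set (Additive G →+ ℝ) :=
  {v | v ≠ 0 ∧ ∃ s : Finset (Additive G →+ ℝ), s.card = m ∧
    (∀ w ∈ s, ∃ χ ∈ T, ∃ c : ℝ, 0 < c ∧ w = c • χ) ∧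
    v ∈ convexHull ℝ (s : Set (Additive G →+ ℝ))}

/-- the derived group is abelian -/
def Metab (G : Type) [Group G] : Prop :=
  ∀ a ∈ commutator G, ∀ b ∈ commutator G, a * b = b * a

/-- `k ⊗ G'` is a finitely generated module over the monoid ring `k G_χ` (acting by
conjugation): there is a finite subset `V` of `G'` such that every homomorphism `y` from `G'` to
the additive group of `k` which vanishes on all conjugates `g v g⁻¹`, `g ∈ G_χ`, `v ∈ V`, is
zero. -/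
def KFG (G : Type) [Group G] (k : Type) [Field k] (χ : Additive G →+ ℝ) : Prop :=
  ∃ V : Finset G, (∀ v ∈ V, v ∈ commutator G) ∧ ∀ y : G → k,
    (∀ a ∈ commutator G, ∀ b ∈ commutator G, y (a * b) = y a + y b) →
    (∀ g, 0 ≤ χ (Additive.ofMul g) → ∀ v ∈ V, y (g * v * g⁻¹) = 0) →
    ∀ a ∈ commutator G, y a = 0

/-! ### Statements: modules -/

/-- 1: the first syzygy -/
def StUnshift : Prop := ∀ (R : Type) [Ring R] (M : Type) [AddCommGroup M] [Module R M] (j : ℕ),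
  (IsFP R M j → Module.Finite R M) ∧
  (IsFP R M (j + 1) → ∃ (F : ModuleCat.{0} R) (f : F →ₗ[R] M), Module.Projective R F ∧
    Module.Finite R F ∧ Function.Surjective f ∧ IsFP R (LinearMap.ker f) j)

/-- 2: type `FP_1` from a presentation -/
def StBuild : Prop := ∀ (R : Type) [Ring R] (M : Type) [AddCommGroup M] [Module R M]
  (F : ModuleCat.{0} R) (f : F →ₗ[R] M), Module.Projective R F → Module.Finite R F →
  Function.Surjective f → (LinearMap.ker f).FG → IsFP R M 1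

/-- 2b: type `FP_m` implies type `FP_n` for `n ≤ m` -/
def StMono : Prop := ∀ (R : Type) [Ring R] (M : Type) [AddCommGroup M] [Module R M] (m n : ℕ),
  n ≤ m → IsFP R M m → IsFP R M n

/-- 3: lifting a cocycle to the twisted module -/
def StTwist : Prop := ∀ {G : Type} [Group G] (S : Submonoid G) {k : Type} [Field k] (P : Type)
  [AddCommGroup P] [Module (MonoidAlgebra ℤ S) P], Module.Projective (MonoidAlgebra ℤ S) P →
  ∀ (v : P →+ (G → k)) (δ : S → G → k) (J : AddSubgroup (G → k)),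
  (∀ (s : S) (p : P) (x : G), v (MonoidAlgebra.of ℤ S s • p) x = v p (x * s)) →
  (∀ (s t : S) (x : G), δ (s * t) x = δ s x + δ t (x * s)) →
  (∀ (s : S) (p : P), (fun x : G => δ s x * v p (x * s)) ∈ J) →
  ∃ u : P →+ (G → k), (∀ (s : S) (p : P) (x : G),
    u (MonoidAlgebra.of ℤ S s • p) x = u p (x * s) + δ s x * v p (x * s)) ∧ ∀ p, u p ∈ J

/-- 4: the Koszul step -/
def StKos : Prop := ∀ (R : Type) [Ring R] (α : Type) (e : α → R),
  (∀ a b, e a * e b = e b * e a) →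
  ∀ (F K : Type) [AddCommGroup F] [Module R F] [AddCommGroup K] [Module R K] (f : F →ₗ[R] K),
  Function.Surjective f → ∀ (i : ℕ) (z : (Fin i → α) → K),
  (∀ b : Fin (i + 1) → α,
    ∑ j : Fin (i + 1), (-1 : ℤ) ^ (j : ℕ) • (e (b j) • z (fun l => b (j.succAbove l))) = 0) →
  ∃ (κ : (Fin i → α) → F) (z' : (Fin (i + 1) → α) → LinearMap.ker f),
    (∀ b, f (κ b) = z b) ∧
    (∀ b, (z' b : F) =
      ∑ j : Fin (i + 1), (-1 : ℤ) ^ (j : ℕ) • (e (b j) • κ (fun l => b (j.succAbove l)))) ∧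
    ∀ b : Fin (i + 2) → α,
      ∑ j : Fin (i + 2), (-1 : ℤ) ^ (j : ℕ) • (e (b j) • z' (fun l => b (j.succAbove l))) = 0

/-- 5: the main lemma -/
def StCore : Prop := ∀ {G : Type} [Group G] (A : Subgroup G) [A.Normal],
  (∀ a ∈ A, ∀ b ∈ A, a * b = b * a) → ∀ (S : Submonoid G), (∀ a ∈ A, a ∈ S) →
  ∀ {k : Type} [Field k] (m : ℕ) (χ : ℕ → G → ℝ) (y Y : ℕ → G → k) (b : ℕ → G), 1 ≤ m →
  (∀ i < m, ∀ x g, χ i (x * g) = χ i x + χ i g) →
  (∀ s ∈ S, 0 ≤ ∑ i ∈ Finset.range m, χ i s) →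
  (∀ C : ℝ, ∃ x, C ≤ ∑ i ∈ Finset.range m, χ i x) →
  (∀ i < m, ∀ a ∈ A, ∀ x, Y i (a * x) = y i a + Y i x) →
  (∀ i < m, ∀ g, ∃ C : ℝ, ∀ x, C ≤ χ i x → Y i (x * g) = Y i x) →
  (∀ i < m, b i ∈ A) → (∀ i < m, ∀ j < i, y i (b j) = 0) → (∀ i < m, y i (b i) ≠ 0) →
    ¬ IsFP (MonoidAlgebra ℤ S) (Triv S) m

/-! ### Statements: groups -/

/-- 6: the derived group of a finitely generated group is the normal closure of a finite set -/
def StNC : Prop := ∀ (G : Type) [Group G] [Group.FG G],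
  ∃ V : Finset G, (∀ v ∈ V, v ∈ commutator G) ∧ commutator G ≤ Subgroup.normalClosure (V : Set G)

/-- 7: from a homomorphism to a coarsely constant function -/
def StY : Prop := ∀ (G : Type) [Group G] [Group.FG G], Metab G → ∀ (k : Type) [Field k]
  (χ : Additive G →+ ℝ), χ ≠ 0 →
  ∃ V : Finset G, (∀ v ∈ V, v ∈ commutator G) ∧ ∀ y : G → k,
    (∀ a ∈ commutator G, ∀ b ∈ commutator G, y (a * b) = y a + y b) →
    (∀ g, 0 ≤ χ (Additive.ofMul g) → ∀ v ∈ V, y (g * v * g⁻¹) = 0) →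
    ∃ Y : G → k, (∀ a ∈ commutator G, ∀ x, Y (a * x) = y a + Y x) ∧
      ∀ g, ∃ C : ℝ, ∀ x, C ≤ χ (Additive.ofMul x) → Y (x * g) = Y x

/-- 8: from `KFG` for the prime field to generation of the derived group -/
def StGen : Prop := ∀ (G : Type) [Group G], Metab G → ∀ (p r : ℕ) [Fact p.Prime],
  (∀ a ∈ commutator G, a ^ (p ^ r) = 1) → ∀ χ : Additive G →+ ℝ, KFG G (ZMod p) χ →
  ∃ V : Finset G, (∀ v ∈ V, v ∈ commutator G) ∧ ∀ a ∈ commutator G,
    a ∈ Subgroup.closure {w : G | ∃ g v : G, 0 ≤ χ (Additive.ofMul g) ∧ v ∈ V ∧ w = g * v * g⁻¹}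

/-- 9: the criterion for `Σ^1` -/
def StSig1 : Prop := ∀ (G : Type) [Group G] [Group.FG G], Metab G → ∀ χ : Additive G →+ ℝ, χ ≠ 0 →
  ∀ V : Finset G, (∀ v ∈ V, v ∈ commutator G) → (∀ a ∈ commutator G,
    a ∈ Subgroup.closure {w : G | ∃ g v : G, 0 ≤ χ (Additive.ofMul g) ∧ v ∈ V ∧ w = g * v * g⁻¹}) →
  IsFP (MonoidAlgebra ℤ (Gmon χ)) (Triv (Gmon χ)) 1

/-- 10: convex combinations -/
def StConv : Prop := ∀ (E : Type) [AddCommGroup E] [Module ℝ E] (s : Finset E) (v : E), v ≠ 0 →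
  v ∈ convexHull ℝ (s : Set E) → ∃ n : ℕ, 1 ≤ n ∧ n ≤ s.card ∧ ∃ w : ℕ → E, ∃ c : ℕ → ℝ,
    (∀ i < n, w i ∈ s ∧ 0 < c i) ∧ v = ∑ i ∈ Finset.range n, c i • w i

/-! ### The result -/

/-- the first part: derived groups of prime power exponent -/
def StMain1 : Prop := ∀ (m : ℕ) (G : Type) [Group G] [Group.FG G], 1 ≤ m → Metab G →
  GroupFP G m → ∀ p r : ℕ, p.Prime → (∀ a ∈ commutator G, a ^ (p ^ r) = 1) →
    ConvLE G m (SigC G 1) ⊆ SigC G m

/-- the second part: coefficients in a field -/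
def StMain2 : Prop := ∀ (m : ℕ) (G : Type) [Group G] [Group.FG G], 1 ≤ m → Metab G →
  GroupFP G m → ∀ (k : Type) [Field k],
    ConvLE G m {χ | χ ≠ 0 ∧ ¬ KFG G k χ} ⊆ SigC G m

end Pool.Agent.Work.MP_e9e200_al
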