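import Pool.Agent.Work.MP_e9e200_al.Bd.B01

/-!
# Sigma invariants of metabelian groups: the local theorem, statements of the items

All but one of the characters belong to a prime `p`, the last one is arbitrary.
-/

set_option autoImplicit false

namespace Pool.Agent.Work.MP_e9e200_al

/-- the subgroup generated by all conjugates `g v g⁻¹` with `χ g ≥ 0` and `v ∈ V` -/
def Gen (G : Type) [Group G] (χ : Additive G →+ ℝ) (V : Finset G) : Subgroup G :=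
  Subgroup.closure {w : G | ∃ g v : G, 0 ≤ χ (Additive.ofMul g) ∧ v ∈ V ∧ w = g * v * g⁻¹}

/-- `ℤ_(p) ⊗ G'` is a finitely generated module over the monoid ring `ℤ_(p) G_χ` (acting by
conjugation): there is a finite subset `V` of `G'` such that every element of `G'` has a power
with exponent not divisible by `p` in the subgroup generated by all conjugates `g v g⁻¹`,
`g ∈ G_χ`, `v ∈ V` -/
def LFG (G : Type) [Group G] (p : ℕ) (χ : Additive G →+ ℝ) : Prop :=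
  ∃ V : Finset G, (∀ v ∈ V, v ∈ commutator G) ∧
    ∀ a ∈ commutator G, ∃ n : ℕ, ¬ p ∣ n ∧ a ^ n ∈ Gen G χ V

/-- the characters which belong to the prime `p` -/
def PSet (G : Type) [Group G] (p : ℕ) : Set (Additive G →+ ℝ) := {χ | χ ≠ 0 ∧ ¬ LFG G p χ}

/-- 18: the quotient of the derived group, precise form -/
def StQuot3 : Prop := ∀ (G : Type) [Group G] [Group.FG G], Metab G → ∀ χ : Additive G →+ ℝ,
  χ ≠ 0 → ∀ V0 : Finset G, (∀ v ∈ V0, v ∈ commutator G) →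
  ∃ V : Finset G, V0 ⊆ V ∧ (∀ v ∈ V, v ∈ commutator G) ∧
  ∃ (M : Type) (_ : AddCommGroup M) (y : G → M),
    (∀ a ∈ commutator G, ∀ b ∈ commutator G, y (a * b) = y a + y b) ∧
    (∀ a ∈ commutator G, (y a = 0 ↔ a ∈ Gen G χ V)) ∧
    (∀ h : G, 0 < χ (Additive.ofMul h) → ∀ a ∈ commutator G,
      ∃ N0 : ℕ, ∀ N : ℕ, N0 ≤ N → y (h ^ N * a * (h ^ N)⁻¹) = 0) ∧
    ((∃ a ∈ commutator G, y a ≠ 0) → (y '' (commutator G : Set G)).Infinite)

/-- 19: a function which grows along the translation by `μ` -/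
def StPhi : Prop := ∀ (M : Type) [AddCommGroup M] (p : ℕ) [Fact p.Prime] (μ : M),
  (∀ n : ℕ, n • μ = 0 → p ∣ n) → ∃ φ : M → ZMod p, ∀ x, φ (μ + x) = φ x + 1

/-- 20: prescribed signs for linearly independent characters -/
def StSign : Prop := ∀ (G : Type) [Group G] (n : ℕ) (X : ℕ → (Additive G →+ ℝ)),
  LinearIndependent ℝ (fun i : Fin n => X i) → ∀ j < n,
  ∃ h : G, X j (Additive.ofMul h) ≤ 0 ∧ ∀ i < n, i ≠ j → 0 < X i (Additive.ofMul h)

/-- 21: Carathéodory's theorem for cones, the exceptional element is the last one -/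
def StCar : Prop := ∀ (E : Type) [AddCommGroup E] [Module ℝ E] (s : Finset E) (v w0 : E),
  v ∈ convexHull ℝ (s : Set E) →
  ∃ n : ℕ, n ≤ s.card ∧ ∃ (w : ℕ → E) (c : ℕ → ℝ),
    LinearIndependent ℝ (fun i : Fin n => w i) ∧
    (∀ i < n, w i ∈ s ∧ 0 < c i ∧ (i + 1 < n → w i ≠ w0)) ∧
    v = ∑ i ∈ Finset.range n, c i • w i

/-- 22: a character for which `G'` is locally finitely generated at all primes -/
def StPrime : Prop := ∀ (G : Type) [Group G] [Group.FG G], Metab G → ∀ χ : Additive G →+ ℝ,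
  χ ≠ 0 → (∀ p : ℕ, p.Prime → LFG G p χ) →
  ∃ V : Finset G, (∀ v ∈ V, v ∈ commutator G) ∧ ∀ a ∈ commutator G, a ∈ Gen G χ V

/-- 23: the main lemma of the local theorem -/
def StCore3 : Prop := ∀ {G : Type} [Group G] (A : Subgroup G) [A.Normal],
  (∀ a ∈ A, ∀ b ∈ A, a * b = b * a) → ∀ (S : Submonoid G), (∀ a ∈ A, a ∈ S) →
  ∀ (B : Set G), (∀ a ∈ B, a ∈ A) →
  ∀ {k : Type} [Field k] {M : Type} [AddCommGroup M] (m : ℕ) (χ : ℕ → G → ℝ) (y Y : ℕ → G → k)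
    (ym Ym : G → M) (b : ℕ → G),
  (∀ i ≤ m, ∀ x g, χ i (x * g) = χ i x + χ i g) →
  (∀ s ∈ S, 0 ≤ ∑ i ∈ Finset.range (m + 1), χ i s) →
  (∀ C : ℝ, ∃ x, C ≤ ∑ i ∈ Finset.range (m + 1), χ i x) →
  (∀ i < m, ∀ a ∈ B, ∀ x, Y i (a * x) = y i a + Y i x) →
  (∀ i < m, ∀ g, ∃ C : ℝ, ∀ x, C ≤ χ i x → Y i (x * g) = Y i x) →
  (∀ a ∈ B, ∀ x, Ym (a * x) = ym a + Ym x) →
  (∀ g, ∃ C : ℝ, ∀ x, C ≤ χ m x → Ym (x * g) = Ym x) → (ym '' B).Infinite →
  (∀ i < m, b i ∈ B) → (∀ i < m, ym (b i) = 0) →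
  (∀ i < m, ∀ j < i, y i (b j) = 0) → (∀ i < m, y i (b i) ≠ 0) →
    ¬ IsFP (MonoidAlgebra ℤ S) (Triv S) (m + 1)

/-- linearly independent characters which, with one exception, belong to the prime `p` -/
def StSumLoc : Prop := ∀ (G : Type) [Group G] [Group.FG G], Metab G → ∀ (p : ℕ), p.Prime →
  ∀ (n : ℕ) (X : ℕ → (Additive G →+ ℝ)) (v : Additive G →+ ℝ),
  LinearIndependent ℝ (fun i : Fin (n + 1) => X i) → (∀ i < n, ¬ LFG G p (X i)) →
  (∀ V : Finset G, (∀ v ∈ V, v ∈ commutator G) → ∃ a ∈ commutator G, a ∉ Gen G (X n) V) →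
  v = ∑ i ∈ Finset.range (n + 1), X i →
    ¬ IsFP (MonoidAlgebra ℤ (Gmon v)) (Triv (Gmon v)) (n + 1)

/-- the local theorem -/
def StLoc : Prop := ∀ (m : ℕ) (G : Type) [Group G] [Group.FG G], 1 ≤ m → Metab G →
  GroupFP G m → ∀ p : ℕ, p.Prime → ConvMix G m (PSet G p) (SigC G 1) ⊆ SigC G m

end Pool.Agent.Work.MP_e9e200_al
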