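import Pool.Agent.Work.MP_e9e200_al.Bd.B01

/-! Project MP_e9e200_al, item Ch: a functional which kills a half space and a finite set. -/

set_option autoImplicit false

namespace Pool.Agent.Work.MP_e9e200_al

namespace Ch

variable {G : Type} [Group G]

theorem seq {k : Type} [Field k] (Q : (G → k) → Prop) (n : ℕ)
    (h : ∀ W : Finset G, (∀ w ∈ W, w ∈ commutator G) →
      ∃ y : G → k, Q y ∧ (∀ w ∈ W, y w = 0) ∧ ∃ b ∈ commutator G, y b ≠ 0) :
    ∃ (y : ℕ → G → k) (b : ℕ → G), ∀ i < n, Q (y i) ∧ b i ∈ commutator G ∧ y i (b i) ≠ 0 ∧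
      ∀ j < i, y i (b j) = 0 := by
  classical
  induction n with
  | zero => exact ⟨fun _ _ => 0, fun _ => 1, fun i hi => absurd hi (Nat.not_lt_zero i)⟩
  | succ n ih =>
    obtain ⟨y, b, hyb⟩ := ih
    obtain ⟨y0, hQ, h0, b0, hb0, hb1⟩ := h ((Finset.range n).image b) (by
      intro w hw
      obtain ⟨i, hi, rfl⟩ := Finset.mem_image.mp hw
      exact (hyb i (Finset.mem_range.mp hi)).2.1)
    refine ⟨Function.update y n y0, Function.update b n b0, fun i hi => ?_⟩
    rcases Nat.lt_succ_iff_lt_or_eq.mp hi with hi | rfl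
    · rw [Function.update_of_ne hi.ne, Function.update_of_ne hi.ne]
      obtain ⟨h1, h2, h3, h4⟩ := hyb i hi
      refine ⟨h1, h2, h3, fun j hj => ?_⟩
      rw [Function.update_of_ne (by omega)]
      exact h4 j hj
    · rw [Function.update_self, Function.update_self]
      refine ⟨hQ, hb0, hb1, fun j hj => ?_⟩
      rw [Function.update_of_ne hj.ne]
      exact h0 _ (Finset.mem_image_of_mem b (Finset.mem_range.mpr hj))


omit [Group G] in
theorem rel {k : Type} [Field k] (W : Finset G) (z : Fin (W.card + 1) → G → k) :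
    ∃ c : Fin (W.card + 1) → k, (∀ w ∈ W, ∑ i, c i * z i w = 0) ∧
      ∃ j, c j ≠ 0 ∧ ∀ i < j, c i = 0 := by
  classical
  let f : (Fin (W.card + 1) → k) →ₗ[k] (W → k) :=
    { toFun := fun c w => ∑ i, c i * z i w
      map_add' := by
        intro c d
        funext w
        simp only [Pi.add_apply, add_mul, Finset.sum_add_distrib]
      map_smul' := by
        intro r c
        funext w
        simp only [Pi.smul_apply, smul_eq_mul, Finset.mul_sum, mul_assoc, RingHom.id_apply] }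
  have hker : LinearMap.ker f ≠ ⊥ := by
    apply LinearMap.ker_ne_bot_of_finrank_lt
    rw [Module.finrank_fintype_fun_eq_card, Module.finrank_fintype_fun_eq_card, Fintype.card_coe,
      Fintype.card_fin]
    exact Nat.lt_succ_self _
  obtain ⟨c, hc, hc0⟩ := Submodule.exists_mem_ne_zero_of_ne_bot hker
  refine ⟨c, ?_, ?_⟩
  · intro w hw
    have h1 : f c = 0 := hc
    exact congrFun h1 ⟨w, hw⟩
  · have hne : ({j | c j ≠ 0} : Set (Fin (W.card + 1))).Nonempty := by
      by_contra hcon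
      apply hc0
      funext j
      by_contra hj
      exact hcon ⟨j, hj⟩
    obtain ⟨j, hj, hmin⟩ := WellFounded.has_min
      (wellFounded_lt : WellFounded ((· < ·) : Fin (W.card + 1) → Fin (W.card + 1) → Prop)) _ hne
    refine ⟨j, hj, fun i hi => ?_⟩
    by_contra hci
    exact hmin i hci hi

end Ch

open Ch in
theorem I_Ch : StCh := by
  intro G _ k _ ψ h B hψ hB hN hK V W hV hW
  classical
  -- the sequence of functionals
  obtain ⟨y, a, hya⟩ := seq (k := k) (fun y =>
      (∀ a ∈ commutator G, ∀ b ∈ commutator G, y (a * b) = y a + y b) ∧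
      (∀ g, 0 ≤ ψ (Additive.ofMul g) → ∀ v ∈ V, y (g * v * g⁻¹) = 0)) (W.card + 1) (by
    intro W' hW'
    by_contra hcon
    push Not at hcon
    refine hK ⟨V ∪ W', ?_, ?_⟩
    · intro x hx
      rcases Finset.mem_union.mp hx with hx | hx
      · exact hV x hx
      · exact hW' x hx
    · intro y hy1 hy2
      refine hcon y ⟨hy1, fun g hg v hv => hy2 g hg v (Finset.mem_union_left _ hv)⟩ ?_
      intro x hx
      have h := hy2 1 (by simp) x (Finset.mem_union_right _ hx)
      simpa using h)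
  -- the exponent
  choose! N0 hN0 using hN
  obtain ⟨N, hNN⟩ : ∃ N : ℕ, ∀ i < W.card + 1, N0 (a i) ≤ N :=
    ⟨(Finset.range (W.card + 1)).sup fun i => N0 (a i), fun i hi =>
      Finset.le_sup (f := fun i => N0 (a i)) (Finset.mem_range.mpr hi)⟩
  obtain ⟨t, ht⟩ : ∃ t : G, t = h ^ N := ⟨_, rfl⟩
  have htB : ∀ i < W.card + 1, t * a i * t⁻¹ ∈ B := by
    intro i hi
    rw [ht]
    exact hN0 (a i) (hya i hi).2.1 N (hNN i hi)
  have htψ : ∀ g, 0 ≤ ψ (Additive.ofMul g) → 0 ≤ ψ (Additive.ofMul (t⁻¹ * g)) := by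
    intro g hg
    rw [ofMul_mul, map_add, ofMul_inv, map_neg, ht, ofMul_pow, map_nsmul, nsmul_eq_mul]
    have h1 : (N : ℝ) * ψ (Additive.ofMul h) ≤ 0 :=
      mul_nonpos_of_nonneg_of_nonpos (Nat.cast_nonneg N) hψ
    linarith
  have htc : ∀ x ∈ commutator G, t⁻¹ * x * t ∈ commutator G := by
    intro x hx
    have h1 := (inferInstance : (commutator G).Normal).conj_mem x hx t⁻¹
    rwa [inv_inv] at h1
  obtain ⟨c, hcW, j, hcj, hmin⟩ := rel W (fun (i : Fin (W.card + 1)) x => y i (t⁻¹ * x * t))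
  refine ⟨fun x => ∑ i : Fin (W.card + 1), c i * y i (t⁻¹ * x * t), ?_, ?_, hcW, ?_⟩
  · intro x hx x' hx'
    rw [← Finset.sum_add_distrib]
    refine Finset.sum_congr rfl fun i _ => ?_
    have h1 : t⁻¹ * (x * x') * t = (t⁻¹ * x * t) * (t⁻¹ * x' * t) := by group
    rw [h1, (hya i i.2).1.1 _ (htc x hx) _ (htc x' hx'), mul_add]
  · intro g hg v hv
    refine Finset.sum_eq_zero fun i _ => ?_
    have h1 : t⁻¹ * (g * v * g⁻¹) * t = (t⁻¹ * g) * v * (t⁻¹ * g)⁻¹ := by group
    rw [h1, (hya i i.2).1.2 _ (htψ g hg) v hv, mul_zero]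
  · refine ⟨t * a j * t⁻¹, htB j j.2, ?_⟩
    have h1 : t⁻¹ * (t * a j * t⁻¹) * t = a j := by group
    simp only [h1]
    rw [Finset.sum_eq_single j]
    · exact mul_ne_zero hcj (hya j j.2).2.2.1
    · intro i _ hij
      rcases lt_or_gt_of_ne hij with hlt | hgt
      · rw [hmin i hlt, zero_mul]
      · rw [(hya i i.2).2.2.2 j hgt, mul_zero]
    · intro hj
      exact absurd (Finset.mem_univ j) hj

end Pool.Agent.Work.MP_e9e200_al
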