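import Pool.Agent.Work.MP_e9e200_al.Stmts

/-!
# Item 10: convex combinations
-/

set_option autoImplicit false

namespace Pool.Agent.Work.MP_e9e200_al

theorem I_Conv : StConv := by
  classical
  intro E _ _ s v hv hvs
  obtain ⟨w, hw0, -, hws⟩ := Finset.mem_convexHull'.1 hvs
  set s' := s.filter (fun y => 0 < w y) with hs'
  have hsum : ∑ y ∈ s', w y • y = v := by
    rw [← hws, hs']
    apply Finset.sum_subset (Finset.filter_subset _ _)
    intro y hy hy'
    have h1 : ¬ 0 < w y := fun h => hy' (Finset.mem_filter.2 ⟨hy, h⟩)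
    have h2 : w y = 0 := le_antisymm (not_lt.1 h1) (hw0 y hy)
    rw [h2, zero_smul]
  have hne : s'.Nonempty := by
    rw [Finset.nonempty_iff_ne_empty]
    intro h
    rw [h, Finset.sum_empty] at hsum
    exact hv hsum.symm
  refine ⟨s'.card, Finset.card_pos.2 hne, Finset.card_le_card (Finset.filter_subset _ _),
    fun i => if h : i < s'.card then (s'.equivFin.symm ⟨i, h⟩ : E) else 0,
    fun i => if h : i < s'.card then w (s'.equivFin.symm ⟨i, h⟩ : E) else 0, ?_, ?_⟩
  · intro i hi
    simp only [dif_pos hi]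
    have h1 := (s'.equivFin.symm ⟨i, hi⟩).2
    exact ⟨(Finset.mem_filter.1 h1).1, (Finset.mem_filter.1 h1).2⟩
  · rw [Finset.sum_range, ← hsum, ← Finset.sum_coe_sort s' (fun y => w y • y),
      ← Equiv.sum_comp s'.equivFin.symm]
    apply Finset.sum_congr rfl
    intro i _
    simp only [dif_pos i.2]

end Pool.Agent.Work.MP_e9e200_al
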