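import Pool.Agent.Work.MP_e9e200_al.Bd.B01

/-!
# Item 16: convex combinations with an exceptional element
-/

set_option autoImplicit false

namespace Pool.Agent.Work.MP_e9e200_al

theorem I_Conv2 : StConv2 := by
  intro E _ _ _ s v w0 hvs
  obtain ⟨w, hw0, -, hws⟩ := Finset.mem_convexHull'.1 hvs
  set s' := (s.erase w0).filter (fun y => 0 < w y) with hs'
  have hsum : ∑ y ∈ s', w y • y = ∑ y ∈ s.erase w0, w y • y := by
    rw [hs']
    apply Finset.sum_subset (Finset.filter_subset _ _)
    intro y hy hy'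
    have h1 : ¬ 0 < w y := fun h => hy' (Finset.mem_filter.2 ⟨hy, h⟩)
    have h2 : w y = 0 := le_antisymm (not_lt.1 h1) (hw0 y (Finset.mem_of_mem_erase hy))
    rw [h2, zero_smul]
  refine ⟨s'.card, Finset.card_le_card (Finset.filter_subset _ _),
    fun i => if h : i < s'.card then (s'.equivFin.symm ⟨i, h⟩ : E) else 0,
    fun i => if h : i < s'.card then w (s'.equivFin.symm ⟨i, h⟩ : E) else 0,
    if w0 ∈ s then w w0 else 0, ?_, ?_, ?_, ?_⟩
  · split_ifs with h
    · exact hw0 w0 h
    · exact le_rfl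
  · intro h
    by_contra hcon
    exact h (if_neg hcon)
  · intro i hi
    simp only [dif_pos hi]
    have h1 := (s'.equivFin.symm ⟨i, hi⟩).2
    have h2 := Finset.mem_filter.1 h1
    exact ⟨Finset.mem_of_mem_erase h2.1, Finset.ne_of_mem_erase h2.1, h2.2⟩
  · have h1 : ∑ i ∈ Finset.range s'.card,
        (if h : i < s'.card then w (s'.equivFin.symm ⟨i, h⟩ : E) else 0) •
          (if h : i < s'.card then (s'.equivFin.symm ⟨i, h⟩ : E) else 0) =
        ∑ y ∈ s', w y • y := by
      rw [Finset.sum_range, ← Finset.sum_coe_sort s' (fun y => w y • y),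
        ← Equiv.sum_comp s'.equivFin.symm]
      apply Finset.sum_congr rfl
      intro i _
      simp only [dif_pos i.2]
    rw [h1, hsum, ← hws]
    by_cases h : w0 ∈ s
    · rw [if_pos h, Finset.sum_erase_add _ _ h]
    · rw [if_neg h, Finset.erase_eq_of_notMem h, zero_smul, add_zero]

end Pool.Agent.Work.MP_e9e200_al
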