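import Pool.Agent.Work.MP_e9e200_al.Stmts

/-!
# Item 8: from `KFG` for the prime field to generation of the derived group
-/

set_option autoImplicit false

namespace Pool.Agent.Work.MP_e9e200_al

namespace Gen

/-- a vector space with a nonzero vector has a nonzero functional -/
lemma exists_dual' (k : Type) [Field k] (N : Type) [AddCommGroup N] [Module k N]
    (n : N) (hn : n ≠ 0) : ∃ f : N →+ k, f n ≠ 0 := by
  by_contra hc
  push Not at hc
  exact hn ((Module.forall_dual_apply_eq_zero_iff k n).1 fun φ => hc (LinearMap.toAddMonoidHom φ))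

/-- the same for groups of exponent `p` -/
lemma exists_dual (p : ℕ) [Fact p.Prime] (N : Type) [AddCommGroup N] (hz : ∀ x : N, p • x = 0)
    (n : N) (hn : n ≠ 0) : ∃ f : N →+ ZMod p, f n ≠ 0 := by
  let _ : Module (ZMod p) N := AddCommGroup.zmodModule hz
  exact exists_dual' (ZMod p) N n hn

/-- a nonzero abelian group of exponent `p ^ r` has a nonzero homomorphism to `ZMod p` -/
lemma exists_hom (M : Type) [AddCommGroup M] (p r : ℕ) [Fact p.Prime]
    (h : ∀ m : M, (p ^ r) • m = 0) (m₀ : M) (hm : m₀ ≠ 0) :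
    ∃ f : M →+ ZMod p, ∃ m : M, f m ≠ 0 := by
  set P : AddSubgroup M := (nsmulAddMonoidHom (α := M) p).range with hP
  have h1 : ∃ m : M, m ∉ P := by
    by_contra hc
    push Not at hc
    apply hm
    have h2 : ∀ k : ℕ, ∀ m : M, ∃ n : M, p ^ k • n = m := by
      intro k
      induction k with
      | zero => intro m; exact ⟨m, by simp⟩
      | succ k ih =>
        intro m
        obtain ⟨n, hn⟩ := ih m
        obtain ⟨n', hn'⟩ := hc n
        refine ⟨n', ?_⟩
        rw [pow_succ, mul_smul]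
        have : p • n' = n := hn'
        rw [this, hn]
    obtain ⟨n, hn⟩ := h2 r m₀
    rw [← hn, h n]
  obtain ⟨m, hm'⟩ := h1
  have hz : ∀ x : M ⧸ P, p • x = 0 := by
    intro x
    obtain ⟨y, rfl⟩ := QuotientAddGroup.mk_surjective x
    rw [← QuotientAddGroup.mk_nsmul, QuotientAddGroup.eq_zero_iff]
    exact ⟨y, rfl⟩
  have hne : (QuotientAddGroup.mk m : M ⧸ P) ≠ 0 := by
    intro h0
    exact hm' ((QuotientAddGroup.eq_zero_iff m).1 h0)
  obtain ⟨φ, hφ⟩ := exists_dual p (M ⧸ P) hz _ hne
  exact ⟨φ.comp (QuotientAddGroup.mk' P), m, hφ⟩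

end Gen

theorem I_Gen : StGen := by
  intro G _ hM p r _ hexp χ hK
  obtain ⟨V, hV, hK⟩ := hK
  refine ⟨V, hV, ?_⟩
  set B : Subgroup G := Subgroup.closure
    {w : G | ∃ g v : G, 0 ≤ χ (Additive.ofMul g) ∧ v ∈ V ∧ w = g * v * g⁻¹} with hB
  intro a ha
  by_contra hab
  let _ : CommGroup (commutator G) :=
    { (inferInstance : Group (commutator G)) with
      mul_comm := fun x y => Subtype.ext (hM x.1 x.2 y.1 y.2) }
  let B' : Subgroup (commutator G) := B.subgroupOf (commutator G)
  let Q := (commutator G) ⧸ B'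
  have hQ : ∀ m : Additive Q, (p ^ r) • m = 0 := by
    intro m
    obtain ⟨x, hx⟩ := QuotientGroup.mk_surjective (s := B') m.toMul
    have h1 : m.toMul ^ (p ^ r) = 1 := by
      rw [← hx, ← QuotientGroup.mk_pow]
      have : x ^ (p ^ r) = 1 := Subtype.ext (hexp x.1 x.2)
      rw [this, QuotientGroup.mk_one]
    exact congrArg Additive.ofMul h1
  have hne : Additive.ofMul (QuotientGroup.mk (s := B') ⟨a, ha⟩) ≠ 0 := by
    intro h0
    have h1 : (QuotientGroup.mk (s := B') ⟨a, ha⟩ : Q) = 1 := congrArg Additive.toMul h0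
    rw [QuotientGroup.eq_one_iff] at h1
    exact hab h1
  obtain ⟨f, m, hf⟩ := Gen.exists_hom (Additive Q) p r hQ _ hne
  obtain ⟨x, hx⟩ := QuotientGroup.mk_surjective (s := B') m.toMul
  classical
  have h0 := hK (fun g => if h : g ∈ commutator G then
    f (Additive.ofMul (QuotientGroup.mk (s := B') ⟨g, h⟩)) else 0) ?_ ?_ x.1 x.2
  · rw [dif_pos x.2] at h0
    apply hf
    have : m = Additive.ofMul (QuotientGroup.mk (s := B') x) := by
      rw [hx]; rfl
    rw [this]
    exact h0
  · intro b hb c hc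
    simp only [dif_pos hb, dif_pos hc, dif_pos (mul_mem hb hc)]
    rw [← map_add]
    rfl
  · intro g hg v hv
    have hmem : g * v * g⁻¹ ∈ commutator G := (inferInstance : (commutator G).Normal).conj_mem v
      (hV v hv) g
    simp only [dif_pos hmem]
    have h1 : (QuotientGroup.mk (s := B') ⟨g * v * g⁻¹, hmem⟩ : Q) = 1 := by
      rw [QuotientGroup.eq_one_iff]
      exact Subgroup.subset_closure ⟨g, v, hg, hv, rfl⟩
    rw [h1, ofMul_one, map_zero]

end Pool.Agent.Work.MP_e9e200_al
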