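import Pool.Agent.Work.MP_e9e200_al.Bd.B01
import Pool.Agent.Work.MP_e9e200_al.Bd.B05

/-! Project MP_e9e200_al: the mixed theorem, assembly. -/

set_option autoImplicit false

namespace Pool.Agent.Work.MP_e9e200_al

namespace Glue2

open Glue

variable {G : Type} [Group G]

theorem kfg_smul' {k : Type} [Field k] {χ : Additive G →+ ℝ} {c : ℝ} (hc : 0 < c)
    (h : KFG G k χ) : KFG G k (c • χ) := by
  obtain ⟨V, hV, h⟩ := h
  refine ⟨V, hV, fun y hy1 hy2 => h y hy1 fun g hg v hv => hy2 g ?_ v hv⟩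
  have h1 : (c • χ) (Additive.ofMul g) = c * χ (Additive.ofMul g) := rfl
  rw [h1]
  exact mul_nonneg hc.le hg

theorem gmon_smul {χ : Additive G →+ ℝ} {c : ℝ} (hc : 0 < c) : Gmon (c • χ) = Gmon χ := by
  ext g
  show 0 ≤ (c • χ) (Additive.ofMul g) ↔ 0 ≤ χ (Additive.ofMul g)
  have h1 : (c • χ) (Additive.ofMul g) = c * χ (Additive.ofMul g) := rfl
  rw [h1, mul_nonneg_iff_of_pos_left hc]

theorem sigC_smul {m : ℕ} {χ : Additive G →+ ℝ} {c : ℝ} (hc : 0 < c) (h : χ ∈ SigC G m) :
    c • χ ∈ SigC G m := by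
  refine ⟨smul_ne_zero hc.ne' h.1, ?_⟩
  rw [gmon_smul hc]
  exact h.2

/-- choice of the functionals and of the elements of the derived group, with values `b i` in a
given set -/
theorem seq2 {k : Type} [Field k] (Q : ℕ → (G → k) → Prop) (B : Set G) (n : ℕ)
    (h : ∀ i < n, ∀ W : Finset G, (∀ w ∈ W, w ∈ B) →
      ∃ y : G → k, Q i y ∧ (∀ w ∈ W, y w = 0) ∧ ∃ b ∈ B, y b ≠ 0) :
    ∃ (y : ℕ → G → k) (b : ℕ → G), ∀ i < n, Q i (y i) ∧ b i ∈ B ∧ y i (b i) ≠ 0 ∧
      ∀ j < i, y i (b j) = 0 := by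
  classical
  induction n with
  | zero => exact ⟨fun _ _ => 0, fun _ => 1, fun i hi => absurd hi (Nat.not_lt_zero i)⟩
  | succ n ih =>
    obtain ⟨y, b, hyb⟩ := ih fun i hi => h i (by omega)
    obtain ⟨y0, hQ, h0, b0, hb0, hb1⟩ := h n (Nat.lt_succ_self n) ((Finset.range n).image b) (by
      intro w hw
      obtain ⟨i, hi, rfl⟩ := Finset.mem_image.mp hw
      exact (hyb i (Finset.mem_range.mp hi)).2.1)
    refine ⟨Function.update y n y0, Function.update b n b0, fun i hi => ?_⟩
    rcases Nat.lt_succ_iff_lt_or_eq.mp hi with hi | rfl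
    · rw [Function.update_of_ne hi.ne, Function.update_of_ne hi.ne]
      obtain ⟨h1, h2, h3, h4⟩ := hyb i hi
      refine ⟨h1, h2, h3, fun j hj => ?_⟩
      rw [Function.update_of_ne (by omega)]
      exact h4 j hj
    · rw [Function.update_self, Function.update_self]
      refine ⟨hQ, hb0, hb1, fun j hj => ?_⟩
      rw [Function.update_of_ne hj.ne]
      exact h0 _ (Finset.mem_image_of_mem b (Finset.mem_range.mpr hj))

end Glue2

open Glue in
theorem I_SumK (hC : StCore) (hY : StY) : StSumK := by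
  intro G _ _ hmet k _ n X v hn1 hv0 hX hsum hfpn
  classical
  choose! V hV hVY using fun i (hi : i < n) => hY G hmet k (X i) (hX i hi).1
  obtain ⟨y, b, hyb⟩ := seq (k := k) (fun i y =>
      (∀ a ∈ commutator G, ∀ b ∈ commutator G, y (a * b) = y a + y b) ∧
      (∀ g, 0 ≤ (X i) (Additive.ofMul g) → ∀ v ∈ V i, y (g * v * g⁻¹) = 0)) n (by
    intro i hi W hW
    by_contra hcon
    push Not at hcon
    refine (hX i hi).2 ⟨V i ∪ W, ?_, ?_⟩
    · intro x hx
      rcases Finset.mem_union.mp hx with hx | hx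
      · exact hV i hi x hx
      · exact hW x hx
    · intro y hy1 hy2
      refine hcon y ⟨hy1, fun g hg v hv => hy2 g hg v (Finset.mem_union_left _ hv)⟩ ?_
      intro x hx
      have h := hy2 1 (by simp) x (Finset.mem_union_right _ hx)
      simpa using h)
  choose! Y hY1 hY2 using fun i (hi : i < n) => hVY i hi (y i) (hyb i hi).1.1 (hyb i hi).1.2
  have hval : ∀ g : G, v (Additive.ofMul g) =
      ∑ i ∈ Finset.range n, (X i) (Additive.ofMul g) := by
    intro g
    conv_lhs => rw [hsum]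
    rw [AddMonoidHom.finsetSum_apply]
  refine hC (commutator G) hmet (Gmon v) ?_ n (fun i g => (X i) (Additive.ofMul g)) y Y b
    hn1 ?_ ?_ ?_ hY1 hY2 (fun i hi => (hyb i hi).2.1) (fun i hi j hj => (hyb i hi).2.2.2 j hj)
    (fun i hi => (hyb i hi).2.2.1) hfpn
  · intro a ha
    show 0 ≤ v (Additive.ofMul a)
    rw [char_comm v ha]
  · intro i _ x g
    exact char_mul _ x g
  · intro s hs
    have h : 0 ≤ v (Additive.ofMul s) := hs
    rwa [hval] at h
  · intro C
    obtain ⟨x, hx⟩ := unbounded v hv0 C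
    refine ⟨x, ?_⟩
    rwa [hval] at hx

open Glue Glue2 in
theorem I_SumMix (hC : StCore2) (hK : StSumK) (hMono : StMono) (hY : StY) (hYg : StYg)
    (hSep : StSep) (hCh : StCh) (hQ : StQuot) : StSumMix := by
  intro G _ _ hmet k _ n X v hv0 hX hXn hsum hfp
  classical
  by_cases hmul : ∃ i < n, ∃ c : ℝ, 0 < c ∧ X n = c • X i
  · -- one character can be absorbed
    obtain ⟨i, hi, c, hc, hci⟩ := hmul
    refine hK G hmet k n (fun j => if j = i then (1 + c) • X i else X j) v (by omega) hv0 ?_ ?_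
      (hMono _ _ (n + 1) n (by omega) hfp)
    · intro j hj
      by_cases hji : j = i
      · rw [if_pos hji]
        have hc1 : 0 < 1 + c := by linarith
        exact ⟨smul_ne_zero hc1.ne' (hX i hi).1, fun h => (hX i hi).2 (kfg_smul hc1 h)⟩
      · rw [if_neg hji]
        exact hX j hj
    · have h1 : ∑ j ∈ (Finset.range n).erase i, (if j = i then (1 + c) • X i else X j) =
          ∑ j ∈ (Finset.range n).erase i, X j := by
        refine Finset.sum_congr rfl fun j hj => ?_
        rw [if_neg (Finset.ne_of_mem_erase hj)]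
      have h2 : ∑ j ∈ Finset.range n, (if j = i then (1 + c) • X i else X j) =
          (1 + c) • X i + ∑ j ∈ (Finset.range n).erase i, X j := by
        rw [← Finset.add_sum_erase (Finset.range n)
          (fun j => if j = i then (1 + c) • X i else X j) (Finset.mem_range.mpr hi), if_pos rfl, h1]
      have h3 : ∑ j ∈ Finset.range n, X j = X i + ∑ j ∈ (Finset.range n).erase i, X j :=
        (Finset.add_sum_erase _ _ (Finset.mem_range.mpr hi)).symm
      rw [hsum, Finset.sum_range_succ, hci, h2, h3, add_smul, one_smul]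
      abel
  -- the separating elements
  have hsep : ∀ i < n, ∃ h : G, 0 < X n (Additive.ofMul h) ∧ X i (Additive.ofMul h) ≤ 0 := by
    intro i hi
    rcases hSep G (X n) (X i) hXn.1 with ⟨c, hc, hci⟩ | h
    · exact absurd ⟨i, hi, c, hc, hci⟩ hmul
    · exact h
  choose! t ht1 ht2 using hsep
  obtain ⟨V0, hV0, hYgV⟩ := hYg G hmet (X n) hXn.1
  obtain ⟨M, _, ym, hym1, hym2, hinf, hdie⟩ := hQ G hmet (X n) hXn V0 hV0
  obtain ⟨Ym, hM1, hM2⟩ := hYgV M ym hym1 hym2
  choose! V hV hVY using fun i (hi : i < n) => hY G hmet k (X i) (hX i hi).1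
  have hB : ∀ b ∈ {a : G | a ∈ commutator G ∧ ym a = 0}, b ∈ commutator G := fun b hb => hb.1
  obtain ⟨y, b, hyb⟩ := seq2 (k := k) (fun i y =>
      (∀ a ∈ commutator G, ∀ b ∈ commutator G, y (a * b) = y a + y b) ∧
      (∀ g, 0 ≤ (X i) (Additive.ofMul g) → ∀ v ∈ V i, y (g * v * g⁻¹) = 0))
      {a : G | a ∈ commutator G ∧ ym a = 0} n (by
    intro i hi W hW
    obtain ⟨y, hy1, hy2, hy3, hy4⟩ := hCh G k (X i) (t i) {a : G | a ∈ commutator G ∧ ym a = 0}
      (ht2 i hi) hB (by
        intro a ha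
        obtain ⟨N0, hN0⟩ := hdie (t i) (ht1 i hi) a ha
        exact ⟨N0, fun N hN => ⟨(inferInstance : (commutator G).Normal).conj_mem a ha _,
          hN0 N hN⟩⟩) (hX i hi).2 (V i) W (hV i hi) (fun w hw => (hW w hw).1)
    exact ⟨y, ⟨hy1, hy2⟩, hy3, hy4⟩)
  choose! Y hY1 hY2 using fun i (hi : i < n) => hVY i hi (y i) (hyb i hi).1.1 (hyb i hi).1.2
  have hval : ∀ g : G, v (Additive.ofMul g) =
      ∑ i ∈ Finset.range (n + 1), (X i) (Additive.ofMul g) := by
    intro g
    conv_lhs => rw [hsum]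
    rw [AddMonoidHom.finsetSum_apply]
  refine hC (commutator G) hmet (Gmon v) ?_ n (fun i g => (X i) (Additive.ofMul g)) y Y ym Ym b
    ?_ ?_ ?_ hY1 hY2 hM1 hM2 hinf (fun i hi => (hyb i hi).2.1.1) (fun i hi => (hyb i hi).2.1.2)
    (fun i hi j hj => (hyb i hi).2.2.2 j hj) (fun i hi => (hyb i hi).2.2.1) hfp
  · intro a ha
    show 0 ≤ v (Additive.ofMul a)
    rw [char_comm v ha]
  · intro i _ x g
    exact char_mul _ x g
  · intro s hs
    have h : 0 ≤ v (Additive.ofMul s) := hs
    rwa [hval] at h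
  · intro C
    obtain ⟨x, hx⟩ := unbounded v hv0 C
    refine ⟨x, ?_⟩
    rwa [hval] at hx

open Glue Glue2 in
theorem I_Mix (hK : StSumK) (hM : StSumMix) (hMono : StMono) (hConv : StConv2) : StMix := by
  intro m G _ _ hm hmet _ k _ v hv
  classical
  obtain ⟨hv0, s, w0, hcard, hs, hconv⟩ := hv
  refine ⟨hv0, fun hfp => ?_⟩
  obtain ⟨n, hn, w, c, c0, hc0, hc0s, hwc, hsum⟩ := hConv _ s v w0 hconv
  have hns : n ≤ s.card := hn.trans (Finset.card_le_card (Finset.erase_subset w0 s))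
  have hT : ∀ i < n, c i • w i ≠ 0 ∧ ¬ KFG G k (c i • w i) := by
    intro i hi
    obtain ⟨h1, h2, h3⟩ := hwc i hi
    rcases hs _ h1 with ⟨χ, hχ, d, hd, hw⟩ | ⟨h4, -⟩
    · rw [hw, smul_smul]
      exact ⟨smul_ne_zero (mul_pos h3 hd).ne' hχ.1, fun h => hχ.2 (kfg_smul (mul_pos h3 hd) h)⟩
    · exact absurd h4 h2
  by_cases h0 : c0 = 0
  · rw [h0, zero_smul, add_zero] at hsum
    have hn1 : 1 ≤ n := by
      rcases Nat.eq_zero_or_pos n with h | h
      · subst h
        rw [Finset.sum_range_zero] at hsum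
        exact absurd hsum hv0
      · exact h
    exact hK G hmet k n (fun i => c i • w i) v hn1 hv0 hT hsum (hMono _ _ m n (by omega) hfp)
  · have hw0 := hc0s h0
    have hc0' : 0 < c0 := lt_of_le_of_ne hc0 (Ne.symm h0)
    have hn1 : n + 1 ≤ m := by
      rw [Finset.card_erase_of_mem hw0] at hn
      have := Finset.card_pos.mpr ⟨w0, hw0⟩
      omega
    have hsum' : v = ∑ i ∈ Finset.range (n + 1), (if i < n then c i • w i else c0 • w0) := by
      rw [hsum, Finset.sum_range_succ, if_neg (lt_irrefl n)]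
      congr 1
      refine Finset.sum_congr rfl fun i hi => ?_
      rw [if_pos (Finset.mem_range.mp hi)]
    have hT' : ∀ i < n, (if i < n then c i • w i else c0 • w0) ≠ 0 ∧
        ¬ KFG G k (if i < n then c i • w i else c0 • w0) := by
      intro i hi
      rw [if_pos hi]
      exact hT i hi
    have hfp' := hMono _ _ m (n + 1) hn1 hfp
    rcases hs _ hw0 with ⟨χ, hχ, d, hd, hw⟩ | ⟨-, χ, hχ, d, hd, hw⟩
    · refine hK G hmet k (n + 1) (fun i => if i < n then c i • w i else c0 • w0) v (by omega) hv0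
        ?_ hsum' hfp'
      intro i hi
      rcases Nat.lt_succ_iff_lt_or_eq.mp hi with hi | rfl
      · exact hT' i hi
      · rw [if_neg (lt_irrefl i), hw, smul_smul]
        exact ⟨smul_ne_zero (mul_pos hc0' hd).ne' hχ.1,
          fun h => hχ.2 (kfg_smul (mul_pos hc0' hd) h)⟩
    · refine hM G hmet k n (fun i => if i < n then c i • w i else c0 • w0) v hv0 hT' ?_ hsum' hfp'
      show (if n < n then c n • w n else c0 • w0) ∈ SigC G 1
      rw [if_neg (lt_irrefl n), hw, smul_smul]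
      exact sigC_smul (mul_pos hc0' hd) hχ

end Pool.Agent.Work.MP_e9e200_al
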