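import Pool.Agent.Work.MP_e9e200_al.Bd.B01

/-!
# The quotient of the derived group
-/

set_option autoImplicit false

namespace Pool.Agent.Work.MP_e9e200_al

namespace Quot

variable {G : Type} [Group G]

/-- the character as a function on `G` -/
def ch (χ : Additive G →+ ℝ) (g : G) : ℝ := χ (Additive.ofMul g)

theorem ch_mul (χ : Additive G →+ ℝ) (a b : G) : ch χ (a * b) = ch χ a + ch χ b := by
  unfold ch
  rw [ofMul_mul, map_add]

theorem ch_one (χ : Additive G →+ ℝ) : ch χ (1 : G) = 0 := by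
  unfold ch
  rw [ofMul_one, map_zero]

theorem ch_pow (χ : Additive G →+ ℝ) (a : G) (N : ℕ) : ch χ (a ^ N) = N * ch χ a := by
  induction N with
  | zero => rw [pow_zero, ch_one]; simp
  | succ N ih => rw [pow_succ, ch_mul, ih]; push_cast; ring

theorem conj_mem {a : G} (ha : a ∈ commutator G) (g : G) : g * a * g⁻¹ ∈ commutator G :=
  (inferInstance : (commutator G).Normal).conj_mem a ha g

section

variable {M : Type} [AddCommGroup M] (y : G → M)
  (hy : ∀ a ∈ commutator G, ∀ b ∈ commutator G, y (a * b) = y a + y b)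

include hy

theorem y_one : y 1 = 0 := by
  have h := hy 1 (Subgroup.one_mem _) 1 (Subgroup.one_mem _)
  rw [mul_one] at h
  exact left_eq_add.1 h

theorem y_inv {a : G} (ha : a ∈ commutator G) : y a⁻¹ = -y a := by
  have h := hy a ha a⁻¹ (Subgroup.inv_mem _ ha)
  rw [mul_inv_cancel, y_one y hy] at h
  exact (neg_eq_of_add_eq_zero_right h.symm).symm

theorem step1 (χ : Additive G →+ ℝ) {t : G} (ht : 0 < ch χ t)
    (V : Finset G) (hV : ∀ v ∈ V, v ∈ commutator G)
    (hy0 : ∀ g, 0 ≤ ch χ g → ∀ v ∈ V, y (g * v * g⁻¹) = 0) {a : G}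
    (ha : a ∈ Subgroup.normalClosure (V : Set G)) :
    a ∈ commutator G ∧ ∃ N₀ : ℕ, ∀ N, N₀ ≤ N → y (t ^ N * a * (t ^ N)⁻¹) = 0 := by
  unfold Subgroup.normalClosure at ha
  induction ha using Subgroup.closure_induction with
  | mem x hx =>
    obtain ⟨v, hv, hc⟩ := Group.mem_conjugatesOfSet_iff.1 hx
    obtain ⟨g, rfl⟩ := isConj_iff.1 hc
    refine ⟨conj_mem (hV v hv) g, ?_⟩
    obtain ⟨N₀, hN₀⟩ := exists_nat_ge (-ch χ g / ch χ t)
    refine ⟨N₀, fun N hN => ?_⟩
    have h1 : 0 ≤ ch χ (t ^ N * g) := by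
      rw [ch_mul, ch_pow]
      have h2 : (N₀ : ℝ) ≤ N := by exact_mod_cast hN
      have h3 : -ch χ g ≤ N * ch χ t := by
        have := (div_le_iff₀ ht).1 (hN₀.trans h2)
        exact this
      linarith
    have h2 := hy0 _ h1 v hv
    have h3 : t ^ N * (g * v * g⁻¹) * (t ^ N)⁻¹ = (t ^ N * g) * v * (t ^ N * g)⁻¹ := by group
    rw [h3]
    exact h2
  | one =>
    refine ⟨Subgroup.one_mem _, 0, fun N _ => ?_⟩
    rw [mul_one, mul_inv_cancel]
    exact y_one y hy
  | mul a b _ _ iha ihb =>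
    obtain ⟨ha, N₁, h1⟩ := iha
    obtain ⟨hb, N₂, h2⟩ := ihb
    refine ⟨Subgroup.mul_mem _ ha hb, max N₁ N₂, fun N hN => ?_⟩
    have h3 : t ^ N * (a * b) * (t ^ N)⁻¹ = (t ^ N * a * (t ^ N)⁻¹) * (t ^ N * b * (t ^ N)⁻¹) := by
      group
    rw [h3, hy _ (conj_mem ha _) _ (conj_mem hb _), h1 N (le_trans (le_max_left _ _) hN),
      h2 N (le_trans (le_max_right _ _) hN), add_zero]
  | inv a _ iha =>
    obtain ⟨ha, N₁, h1⟩ := iha
    refine ⟨Subgroup.inv_mem _ ha, N₁, fun N hN => ?_⟩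
    have h3 : t ^ N * a⁻¹ * (t ^ N)⁻¹ = (t ^ N * a * (t ^ N)⁻¹)⁻¹ := by group
    rw [h3, y_inv y hy (conj_mem ha _), h1 N hN, neg_zero]

end

/-- the quotient of the derived group by a subgroup -/
theorem exQ (hm : Metab G) (B : Subgroup G) :
    ∃ (M : Type) (_ : AddCommGroup M) (y : G → M),
      (∀ a ∈ commutator G, ∀ b ∈ commutator G, y (a * b) = y a + y b) ∧
      ∀ a ∈ commutator G, (y a = 0 ↔ a ∈ B) := by
  classical
  let _ : CommGroup (commutator G) :=
    { (inferInstance : Group (commutator G)) with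
      mul_comm := fun a b => Subtype.ext (hm a a.2 b b.2) }
  obtain ⟨e, he⟩ : ∃ e : G → Additive (commutator G ⧸ B.subgroupOf (commutator G)),
      ∀ (a : G) (h : a ∈ commutator G), e a = Additive.ofMul (QuotientGroup.mk ⟨a, h⟩) :=
    ⟨fun a => if h : a ∈ commutator G then Additive.ofMul (QuotientGroup.mk ⟨a, h⟩) else 0,
      fun a h => dif_pos h⟩
  refine ⟨Additive (commutator G ⧸ B.subgroupOf (commutator G)), inferInstance, e, ?_, ?_⟩
  · intro a ha b hb
    rw [he a ha, he b hb, he _ (mul_mem ha hb)]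
    rfl
  · intro a ha
    rw [he a ha, ofMul_eq_zero, QuotientGroup.eq_one_iff, Subgroup.mem_subgroupOf]

end Quot

open Quot in
theorem I_Quot (h : StNC) (h2 : StSig1) : StQuot := by
  classical
  intro G _ _ hmet χ hχ V0 hV0
  obtain ⟨V1, hV1, hnc⟩ := h G
  set B : Subgroup G := Subgroup.closure {w : G | ∃ g v : G, 0 ≤ χ (Additive.ofMul g) ∧
    v ∈ V0 ∪ V1 ∧ w = g * v * g⁻¹} with hB
  obtain ⟨M, _, y, hy, hy0⟩ := exQ hmet B
  have hV : ∀ v ∈ V0 ∪ V1, v ∈ commutator G := by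
    intro v hv
    rcases Finset.mem_union.1 hv with hv | hv
    · exact hV0 v hv
    · exact hV1 v hv
  have hk : ∀ g, 0 ≤ χ (Additive.ofMul g) → ∀ v ∈ V0 ∪ V1, y (g * v * g⁻¹) = 0 := by
    intro g hg v hv
    rw [hy0 _ (conj_mem (hV v hv) g)]
    exact Subgroup.subset_closure ⟨g, v, hg, hv, rfl⟩
  refine ⟨M, inferInstance, y, hy, fun g hg v hv => hk g hg v (Finset.mem_union_left _ hv), ?_, ?_⟩
  · intro hfin
    -- representatives
    have hr : ∀ m : M, ∃ a : G, m ∈ y '' (commutator G : Set G) → a ∈ commutator G ∧ y a = m := by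
      intro m
      by_cases hm : m ∈ y '' (commutator G : Set G)
      · obtain ⟨a, ha, hm⟩ := hm
        exact ⟨a, fun _ => ⟨ha, hm⟩⟩
      · exact ⟨1, fun hc => absurd hc hm⟩
    choose r hr using hr
    apply hχ.2
    refine h2 G hmet χ hχ.1 ((V0 ∪ V1) ∪ hfin.toFinset.image r) ?_ ?_
    · intro v hv
      rcases Finset.mem_union.1 hv with hv | hv
      · exact hV v hv
      · obtain ⟨m, hm, rfl⟩ := Finset.mem_image.1 hv
        exact (hr m (hfin.mem_toFinset.1 hm)).1
    · intro a ha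
      have hmem : y a ∈ y '' (commutator G : Set G) := ⟨a, ha, rfl⟩
      obtain ⟨hr1, hr2⟩ := hr _ hmem
      have hin : a * (r (y a))⁻¹ ∈ B := by
        rw [← hy0 _ (mul_mem ha (inv_mem hr1)), hy a ha _ (inv_mem hr1), y_inv y hy hr1, hr2,
          add_neg_cancel]
      have e : a = a * (r (y a))⁻¹ * r (y a) := by group
      rw [e]
      refine mul_mem ?_ ?_
      · have hle : B ≤ Subgroup.closure {w : G | ∃ g v : G, 0 ≤ χ (Additive.ofMul g) ∧
            v ∈ (V0 ∪ V1) ∪ hfin.toFinset.image r ∧ w = g * v * g⁻¹} := by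
          rw [hB]
          apply Subgroup.closure_mono
          rintro w ⟨g, v, hg, hv, rfl⟩
          exact ⟨g, v, hg, Finset.mem_union_left _ hv, rfl⟩
        exact hle hin
      · refine Subgroup.subset_closure ⟨1, r (y a), by simp, Finset.mem_union_right _
          (Finset.mem_image_of_mem _ (hfin.mem_toFinset.2 hmem)), by group⟩
  · intro t ht a ha
    exact (step1 y hy χ ht V1 hV1 (fun g hg v hv => hk g hg v (Finset.mem_union_right _ hv))
      (hnc ha)).2

end Pool.Agent.Work.MP_e9e200_al
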