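import Pool.Agent.Work.MP_e9e200_al.Bd.B01

/-!
# Item Sep: characters which are not positive multiples of each other
-/

set_option autoImplicit false

namespace Pool.Agent.Work.MP_e9e200_al

namespace Sep

theorem claim {A : Type} [AddGroup A] (χ ψ : A →+ ℝ) (H : ∀ x, 0 < χ x → 0 < ψ x) {h : A}
    (hχ : 0 < χ h) (hψ : 0 < ψ h) (g : A) : χ g / χ h ≤ ψ g / ψ h := by
  by_contra hc
  push Not at hc
  obtain ⟨q, h1, h2⟩ := exists_rat_btwn hc
  have hd : (0 : ℝ) < (q.den : ℝ) := by exact_mod_cast q.den_pos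
  have hq : (q : ℝ) = (q.num : ℝ) / (q.den : ℝ) := by exact_mod_cast (Rat.num_div_den q).symm
  rw [hq] at h1 h2
  rw [div_lt_div_iff₀ hψ hd] at h1
  rw [div_lt_div_iff₀ hd hχ] at h2
  have e1 : χ (q.den • g + -(q.num • h)) = q.den * χ g - q.num * χ h := by
    rw [map_add, map_neg, map_nsmul, map_zsmul, nsmul_eq_mul, zsmul_eq_mul, sub_eq_add_neg]
  have e2 : ψ (q.den • g + -(q.num • h)) = q.den * ψ g - q.num * ψ h := by
    rw [map_add, map_neg, map_nsmul, map_zsmul, nsmul_eq_mul, zsmul_eq_mul, sub_eq_add_neg]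
  have h3 := H (q.den • g + -(q.num • h)) (by rw [e1]; linarith)
  rw [e2] at h3
  linarith

end Sep

theorem I_Sep : StSep := by
  intro G _ χ ψ hχ
  by_contra hc
  push Not at hc
  obtain ⟨h1, h2⟩ := hc
  have H : ∀ x, 0 < χ x → 0 < ψ x := fun x hx => h2 (Additive.toMul x) hx
  obtain ⟨h, hpos⟩ : ∃ h : Additive G, 0 < χ h := by
    obtain ⟨g, hg⟩ : ∃ g : Additive G, χ g ≠ 0 := by
      by_contra hall
      push Not at hall
      exact hχ (by ext x; exact hall x)
    rcases lt_or_gt_of_ne hg with h | h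
    · exact ⟨-g, by rw [map_neg]; linarith⟩
    · exact ⟨g, h⟩
  have hpsi := H h hpos
  refine h1 (χ h / ψ h) (div_pos hpos hpsi) ?_
  refine DFunLike.ext _ _ (fun g => ?_)
  have c1 := Sep.claim χ ψ H hpos hpsi g
  have c2 := Sep.claim χ ψ H hpos hpsi (-g)
  rw [map_neg, map_neg, neg_div, neg_div, neg_le_neg_iff] at c2
  have c3 := le_antisymm c1 c2
  show χ g = (χ h / ψ h) * ψ g
  rw [div_eq_div_iff hpos.ne' hpsi.ne'] at c3
  field_simp
  linarith

end Pool.Agent.Work.MP_e9e200_al
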