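import Pool.Agent.Work.MP_e9e200_al.Stmts

/-!
# From a homomorphism to a coarsely constant function
-/

set_option autoImplicit false

namespace Pool.Agent.Work.MP_e9e200_al

namespace YF

variable {G : Type} [Group G]

/-- the character as a function on `G` -/
def ch (χ : Additive G →+ ℝ) (g : G) : ℝ := χ (Additive.ofMul g)

lemma ch_mul (χ : Additive G →+ ℝ) (a b : G) : ch χ (a * b) = ch χ a + ch χ b := by
  unfold ch
  rw [ofMul_mul, map_add]

lemma ch_one (χ : Additive G →+ ℝ) : ch χ (1 : G) = 0 := by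
  unfold ch
  rw [ofMul_one, map_zero]

lemma ch_inv (χ : Additive G →+ ℝ) (a : G) : ch χ a⁻¹ = -ch χ a := by
  have h := ch_mul χ a a⁻¹
  rw [mul_inv_cancel, ch_one] at h
  linarith

lemma ch_pow (χ : Additive G →+ ℝ) (a : G) (N : ℕ) : ch χ (a ^ N) = N * ch χ a := by
  induction N with
  | zero => rw [pow_zero, ch_one]; simp
  | succ N ih => rw [pow_succ, ch_mul, ih]; push_cast; ring

lemma exists_t (χ : Additive G →+ ℝ) (h : χ ≠ 0) : ∃ t : G, 0 < ch χ t := by
  by_contra hcon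
  push Not at hcon
  apply h
  ext g
  have h1 := hcon (Additive.toMul g)
  have h2 := hcon (Additive.toMul g)⁻¹
  rw [ch_inv] at h2
  have h3 : ch χ (Additive.toMul g) = 0 := by linarith
  exact h3

/-- the commutator of `t ^ N` and `x` -/
def al (t : G) (N : ℕ) (x : G) : G := t ^ N * x * (t ^ N)⁻¹ * x⁻¹

lemma al_mem (t : G) (N : ℕ) (x : G) : al t N x ∈ commutator G :=
  Subgroup.commutator_mem_commutator (Subgroup.mem_top (t ^ N)) (Subgroup.mem_top x)

lemma al_zero (t x : G) : al t 0 x = 1 := by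
  unfold al
  simp

lemma al_succ (t x : G) (N : ℕ) :
    al t (N + 1) x = (t ^ N * (t * x * t⁻¹ * x⁻¹) * (t ^ N)⁻¹) * al t N x := by
  unfold al
  rw [pow_succ]
  group

lemma al_left (t a x : G) (N : ℕ) : al t N (a * x) = (t ^ N * a * (t ^ N)⁻¹) * al t N x * a⁻¹ := by
  unfold al
  group

lemma al_right (t x g : G) (N : ℕ) : al t N (x * g) = al t N x * (x * al t N g * x⁻¹) := by
  unfold al
  group

section

variable {k : Type} [Field k] (y : G → k)
  (hy : ∀ a ∈ commutator G, ∀ b ∈ commutator G, y (a * b) = y a + y b)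

include hy

lemma y_one : y 1 = 0 := by
  have h := hy 1 (Subgroup.one_mem _) 1 (Subgroup.one_mem _)
  rw [mul_one] at h
  exact left_eq_add.1 h

lemma y_inv {a : G} (ha : a ∈ commutator G) : y a⁻¹ = -y a := by
  have h := hy a ha a⁻¹ (Subgroup.inv_mem _ ha)
  rw [mul_inv_cancel, y_one y hy] at h
  exact (neg_eq_of_add_eq_zero_right h.symm).symm

end

lemma conj_mem {a : G} (ha : a ∈ commutator G) (g : G) : g * a * g⁻¹ ∈ commutator G :=
  (inferInstance : (commutator G).Normal).conj_mem a ha g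

/-- (1) -/
lemma step1 {k : Type} [Field k] (χ : Additive G →+ ℝ) {t : G} (ht : 0 < ch χ t)
    (V : Finset G) (hV : ∀ v ∈ V, v ∈ commutator G) (y : G → k)
    (hy : ∀ a ∈ commutator G, ∀ b ∈ commutator G, y (a * b) = y a + y b)
    (hy0 : ∀ g, 0 ≤ ch χ g → ∀ v ∈ V, y (g * v * g⁻¹) = 0) {a : G}
    (ha : a ∈ Subgroup.normalClosure (V : Set G)) :
    a ∈ commutator G ∧ ∃ N₀ : ℕ, ∀ N, N₀ ≤ N → y (t ^ N * a * (t ^ N)⁻¹) = 0 := by
  unfold Subgroup.normalClosure at ha
  induction ha using Subgroup.closure_induction with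
  | mem x hx =>
    obtain ⟨v, hv, hc⟩ := Group.mem_conjugatesOfSet_iff.1 hx
    obtain ⟨g, rfl⟩ := isConj_iff.1 hc
    refine ⟨conj_mem (hV v hv) g, ?_⟩
    obtain ⟨N₀, hN₀⟩ := exists_nat_ge (-ch χ g / ch χ t)
    refine ⟨N₀, fun N hN => ?_⟩
    have h1 : 0 ≤ ch χ (t ^ N * g) := by
      rw [ch_mul, ch_pow]
      have h2 : (N₀ : ℝ) ≤ N := by exact_mod_cast hN
      have h3 : -ch χ g ≤ N * ch χ t := by
        have := (div_le_iff₀ ht).1 (hN₀.trans h2)
        exact this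
      linarith
    have h2 := hy0 _ h1 v hv
    have h3 : t ^ N * (g * v * g⁻¹) * (t ^ N)⁻¹ = (t ^ N * g) * v * (t ^ N * g)⁻¹ := by group
    rw [h3]
    exact h2
  | one =>
    refine ⟨Subgroup.one_mem _, 0, fun N _ => ?_⟩
    rw [mul_one, mul_inv_cancel]
    exact y_one y hy
  | mul a b _ _ iha ihb =>
    obtain ⟨ha, N₁, h1⟩ := iha
    obtain ⟨hb, N₂, h2⟩ := ihb
    refine ⟨Subgroup.mul_mem _ ha hb, max N₁ N₂, fun N hN => ?_⟩
    have h3 : t ^ N * (a * b) * (t ^ N)⁻¹ = (t ^ N * a * (t ^ N)⁻¹) * (t ^ N * b * (t ^ N)⁻¹) := by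
      group
    rw [h3, hy _ (conj_mem ha _) _ (conj_mem hb _), h1 N (le_trans (le_max_left _ _) hN),
      h2 N (le_trans (le_max_right _ _) hN), add_zero]
  | inv a _ iha =>
    obtain ⟨ha, N₁, h1⟩ := iha
    refine ⟨Subgroup.inv_mem _ ha, N₁, fun N hN => ?_⟩
    have h3 : t ^ N * a⁻¹ * (t ^ N)⁻¹ = (t ^ N * a * (t ^ N)⁻¹)⁻¹ := by group
    rw [h3, y_inv y hy (conj_mem ha _), h1 N hN, neg_zero]

end YF

open YF in
theorem I_Y (h : StNC) : StY := by
  classical
  intro G _ _ hmet k _ χ hχ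
  obtain ⟨V1, hV1, hnc⟩ := h G
  obtain ⟨X, hX⟩ := (Group.fg_def.1 (inferInstance : Group.FG G))
  obtain ⟨t, ht⟩ := exists_t χ hχ
  have hcm : ∀ g : G, t * g * t⁻¹ * g⁻¹ ∈ commutator G := fun g =>
    Subgroup.commutator_mem_commutator (Subgroup.mem_top t) (Subgroup.mem_top g)
  refine ⟨V1 ∪ X.image (fun g => t * g * t⁻¹ * g⁻¹), ?_, ?_⟩
  · intro v hv
    rcases Finset.mem_union.1 hv with hv | hv
    · exact hV1 v hv
    · obtain ⟨g, -, rfl⟩ := Finset.mem_image.1 hv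
      exact hcm g
  intro y hy hy0
  have hy1 : ∀ g, 0 ≤ ch χ g → ∀ v ∈ V1, y (g * v * g⁻¹) = 0 := fun g hg v hv =>
    hy0 g hg v (Finset.mem_union_left _ hv)
  have s1 : ∀ a ∈ commutator G, ∃ N₀ : ℕ, ∀ N, N₀ ≤ N → y (t ^ N * a * (t ^ N)⁻¹) = 0 :=
    fun a ha => (step1 χ ht V1 hV1 y hy hy1 (hnc ha)).2
  have s2 : ∀ x : G, ∃ c : k, ∃ N₀ : ℕ, ∀ N, N₀ ≤ N → y (al t N x) = c := by
    intro x
    obtain ⟨N₀, hN₀⟩ := s1 _ (hcm x)
    refine ⟨y (al t N₀ x), N₀, fun N hN => ?_⟩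
    induction N, hN using Nat.le_induction with
    | base => rfl
    | succ N hN ih =>
      rw [al_succ, hy _ (conj_mem (hcm x) _) _ (al_mem _ _ _), hN₀ N hN, zero_add, ih]
  choose c hc using s2
  refine ⟨fun x => -c x, ?_, ?_⟩
  · intro a ha x
    obtain ⟨N₁, h1⟩ := s1 a ha
    obtain ⟨N₂, h2⟩ := hc x
    obtain ⟨N₃, h3⟩ := hc (a * x)
    have e1 := h1 (N₁ + N₂ + N₃) (by omega)
    have e2 := h2 (N₁ + N₂ + N₃) (by omega)
    have e3 := h3 (N₁ + N₂ + N₃) (by omega)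
    rw [al_left, hy _ (Subgroup.mul_mem _ (conj_mem ha _) (al_mem _ _ _)) _
      (Subgroup.inv_mem _ ha), hy _ (conj_mem ha _) _ (al_mem _ _ _), e1, e2, y_inv y hy ha] at e3
    show -c (a * x) = y a + -c x
    rw [← e3]
    ring
  · have s4 : ∀ g ∈ X, ∀ x : G, 0 ≤ ch χ x → ∀ N : ℕ, y (x * al t N g * x⁻¹) = 0 := by
      intro g hg x hx N
      induction N with
      | zero => rw [al_zero, mul_one, mul_inv_cancel]; exact y_one y hy
      | succ N ih =>
        have e1 : x * al t (N + 1) g * x⁻¹ =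
            ((x * t ^ N) * (t * g * t⁻¹ * g⁻¹) * (x * t ^ N)⁻¹) * (x * al t N g * x⁻¹) := by
          rw [al_succ]
          group
        have h1 : 0 ≤ ch χ (x * t ^ N) := by
          rw [ch_mul, ch_pow]
          positivity
        have h2 := hy0 (x * t ^ N) h1 (t * g * t⁻¹ * g⁻¹)
          (Finset.mem_union_right _ (Finset.mem_image_of_mem _ hg))
        rw [e1, hy _ (conj_mem (hcm g) _) _ (conj_mem (al_mem _ _ _) _), h2, ih, add_zero]
    have s5 : ∀ g ∈ X, ∀ x : G, 0 ≤ ch χ x → c (x * g) = c x := by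
      intro g hg x hx
      obtain ⟨N₂, h2⟩ := hc x
      obtain ⟨N₃, h3⟩ := hc (x * g)
      have e2 := h2 (N₂ + N₃) (by omega)
      have e3 := h3 (N₂ + N₃) (by omega)
      rw [al_right, hy _ (al_mem _ _ _) _ (conj_mem (al_mem _ _ _) _), e2, s4 g hg x hx,
        add_zero] at e3
      exact e3.symm
    have s6 : ∀ g : G, ∃ C : ℝ, ∀ x, C ≤ ch χ x → c (x * g) = c x := by
      intro g
      have hg : g ∈ Subgroup.closure (X : Set G) := by rw [hX]; exact Subgroup.mem_top g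
      induction hg using Subgroup.closure_induction with
      | mem g hg => exact ⟨0, fun x hx => s5 g hg x hx⟩
      | one => exact ⟨0, fun x _ => by rw [mul_one]⟩
      | mul a b _ _ iha ihb =>
        obtain ⟨Ca, hCa⟩ := iha
        obtain ⟨Cb, hCb⟩ := ihb
        refine ⟨max Ca (Cb - ch χ a), fun x hx => ?_⟩
        have h1 := le_trans (le_max_left _ _) hx
        have h2 := le_trans (le_max_right _ _) hx
        rw [← mul_assoc, hCb (x * a) (by rw [ch_mul]; linarith), hCa x h1]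
      | inv a _ iha =>
        obtain ⟨Ca, hCa⟩ := iha
        refine ⟨Ca + ch χ a, fun x hx => ?_⟩
        have h1 := hCa (x * a⁻¹) (by rw [ch_mul, ch_inv]; linarith)
        rw [inv_mul_cancel_right] at h1
        exact h1.symm
    intro g
    obtain ⟨C, hC⟩ := s6 g
    exact ⟨C, fun x hx => by
      show -c (x * g) = -c x
      rw [hC x hx]⟩

end Pool.Agent.Work.MP_e9e200_al
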